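import Pool.Agent.Y274.HMU

/-!
# The slit space minimises the Hardy–Morrey constant among open sets without spherical holes

`MP_f42450_an` asks whether `λ_p(Ω) ≥ λ_p(C_π)` for every bounded open `Ω` whose boundary is
homeomorphic to a sphere. We prove the inequality for all open sets, bounded or not, which contain
the ball of every sphere which they contain and which is centred in them; in particular for all open
sets whose complement has no bounded component. The slit space `C_π` itself is such a set.
-/

set_option autoImplicit false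

open MeasureTheory Filter Topology Set
open scoped ENNReal NNReal RealInnerProductSpace

namespace Pool.Agent.Results.MP_f42450_an.NoSphericalHoles

open Pool.Agent.Results.MP_f42450_an.SphereBoundary
open Pool.Agent.Y274.HMU

variable {n : ℕ}

/-- no bounded component of the complement, no spherical hole -/
theorem noHole_of_components {Ω : Set (E n)}
    (h : ∀ y, y ∉ Ω → ¬ Bornology.IsBounded (connectedComponentIn Ωᶜ y)) : NoSphericalHole Ω := by
  intro x _ r hsub y hy
  by_contra hyΩ
  have hyr : dist y x < r := by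
    refine lt_of_le_of_ne hy fun h' => hyΩ (hsub h')
  refine h y hyΩ (Metric.isBounded_ball.subset (fun z hz => ?_) (t := Metric.ball x r))
  by_contra hzb
  have hzΩ : z ∉ Ω := connectedComponentIn_subset _ _ hz
  have hzr : r < dist z x := by
    rw [Metric.mem_ball, not_lt] at hzb
    exact lt_of_le_of_ne hzb fun h' => hzΩ (hsub h'.symm)
  obtain ⟨w, hw, hw1, hw2⟩ := isPreconnected_connectedComponentIn (x := y) (F := Ωᶜ)
    (Metric.ball x r) (Metric.closedBall x r)ᶜ Metric.isOpen_ball
    Metric.isClosed_closedBall.isOpen_compl (by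
      intro w hw
      have hwΩ : w ∉ Ω := connectedComponentIn_subset _ _ hw
      rcases lt_trichotomy (dist w x) r with h1 | h1 | h1
      · exact Or.inl h1
      · exact absurd (hsub h1) hwΩ
      · exact Or.inr (by simpa using h1))
    ⟨y, mem_connectedComponentIn hyΩ, hyr⟩ ⟨z, hz, by simpa using hzr⟩
  exact hw2 (Metric.ball_subset_closedBall hw1)

/-- bounded sets with connected boundary have no spherical hole -/
theorem noHole_of_frontier (hn : 1 ≤ n) {Ω : Set (E n)} (hΩ : IsOpen Ω)
    (hb : Bornology.IsBounded Ω) (hpre : IsPreconnected (frontier Ω)) : NoSphericalHole Ω := by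
  intro x hx r hsub y hy
  by_contra hyΩ
  have hr0 : 0 ≤ r := dist_nonneg.trans hy
  have hr : Metric.infDist x Ωᶜ ≤ r := by
    refine (Metric.infDist_le_dist_of_mem (show y ∈ Ωᶜ from hyΩ)).trans ?_
    rw [dist_comm]
    exact hy
  obtain ⟨v, hv⟩ : ∃ v : E n, ‖v‖ = 1 := ⟨EuclideanSpace.single ⟨0, hn⟩ 1, by simp⟩
  obtain ⟨y1, hy1, hy1r⟩ := frontier_inside hx hr ⟨y, hyΩ⟩ hΩ hsub
  obtain ⟨t, ht, hyt⟩ := frontier_outside hv hr0 hb hΩ hsub
  obtain ⟨z, hz, hz1, hz2⟩ := hpre (Metric.ball x r) (Metric.closedBall x r)ᶜ Metric.isOpen_ball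
    Metric.isClosed_closedBall.isOpen_compl (by
      intro z hz
      rcases lt_trichotomy (dist z x) r with h | h | h
      · exact Or.inl h
      · rw [hΩ.frontier_eq] at hz
        exact absurd (hsub h) hz.2
      · exact Or.inr (by simpa using h)) ⟨y1, hy1, hy1r⟩
    ⟨_, hyt, by
      simp only [mem_compl_iff, Metric.mem_closedBall, not_le]
      rw [dist_eq_norm, add_sub_cancel_left, norm_smul, hv, mul_one, Real.norm_eq_abs,
        abs_of_nonneg (hr0.trans ht.le)]
      exact ht⟩
  exact hz2 (Metric.ball_subset_closedBall hz1)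

/-- bounded sets whose boundary is a topological sphere have no spherical hole -/
theorem noHole_of_sphere (hn : 1 ≤ n) {Ω : Set (E n)} (hΩ : IsOpen Ω)
    (hb : Bornology.IsBounded Ω) (hS : Nonempty (frontier Ω ≃ₜ Metric.sphere (0 : E n) 1)) :
    NoSphericalHole Ω := by
  intro x hx r hsub y hy
  by_contra hyΩ
  have hr : Metric.infDist x Ωᶜ ≤ r := by
    refine (Metric.infDist_le_dist_of_mem (show y ∈ Ωᶜ from hyΩ)).trans ?_
    rw [dist_comm]
    exact hy
  obtain ⟨z, hz, hzΩ⟩ := meets_compl hn hΩ hb hS hx hr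
  exact hzΩ (hsub hz)

/-- the slit space has no spherical hole -/
theorem noHole_cone {e : E n} (he : ‖e‖ = 1) : NoSphericalHole (cone e Real.pi) := by
  apply noHole_of_components
  intro y hy hb
  have hcv : Convex ℝ (cone e Real.pi)ᶜ := by
    intro a ha b hb' s t hs ht hst
    simp only [cone, mem_compl_iff, mem_ofPred_eq, Real.cos_pi, mul_neg, mul_one, not_lt] at ha hb' ⊢
    rw [inner_add_left, inner_smul_left, inner_smul_left]
    simp only [conj_trivial]
    have h1 : ‖s • a + t • b‖ ≤ s * ‖a‖ + t * ‖b‖ := by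
      refine (norm_add_le _ _).trans ?_
      rw [norm_smul, norm_smul, Real.norm_eq_abs, Real.norm_eq_abs, abs_of_nonneg hs,
        abs_of_nonneg ht]
    nlinarith [mul_le_mul_of_nonneg_left ha hs, mul_le_mul_of_nonneg_left hb' ht]
  have hsub : (cone e Real.pi)ᶜ ⊆ connectedComponentIn (cone e Real.pi)ᶜ y :=
    hcv.isPreconnected.subset_connectedComponentIn hy Subset.rfl
  obtain ⟨M, hM⟩ := (hb.subset hsub).subset_closedBall (0 : E n)
  have hM1 : (0 : ℝ) ≤ |M| + 1 := by positivity
  have h1 : -((|M| + 1) • e) ∈ (cone e Real.pi)ᶜ := by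
    simp only [cone, mem_compl_iff, mem_ofPred_eq, Real.cos_pi, mul_neg, mul_one, not_lt]
    rw [norm_neg, norm_smul, he, mul_one, inner_neg_left, inner_smul_left,
      real_inner_self_eq_norm_sq, he, Real.norm_eq_abs, abs_of_nonneg hM1]
    simp
  have h2 := hM h1
  rw [Metric.mem_closedBall, dist_zero_right, norm_neg, norm_smul, he, mul_one, Real.norm_eq_abs,
    abs_of_nonneg hM1] at h2
  linarith [le_abs_self M]

/-- **The slit space minimises the Hardy–Morrey constant.** Let `n ≥ 1`, `p > n`, and let `C_π` be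
the complement of a closed half-line in `ℝⁿ`. Then `λ_p(Ω) ≥ λ_p(C_π)` for every nonempty open set
`Ω ≠ ℝⁿ`, bounded or unbounded, which satisfies one of the following conditions:
* `Ω` has no spherical hole: if a sphere with centre in `Ω` is contained in `Ω`, so is its ball;
* no connected component of the complement of `Ω` is bounded;
* `Ω` is bounded, and its boundary is connected or homeomorphic to the sphere `S^{n-1}` (the second
  case is question Q1).
The set `C_π` itself satisfies the first condition, so `λ_p(C_π)` is the minimum over this class. -/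
theorem result (n : ℕ) (hn : 1 ≤ n) (p : ℝ) (hp : (n : ℝ) < p) (e : E n) (he : ‖e‖ = 1) :
    (∀ Ω : Set (E n), IsOpen Ω → Ω.Nonempty → Ω ≠ univ →
      (NoSphericalHole Ω ∨
        (∀ y, y ∉ Ω → ¬ Bornology.IsBounded (connectedComponentIn Ωᶜ y)) ∨
        (Bornology.IsBounded Ω ∧ (IsPreconnected (frontier Ω) ∨
          Nonempty (frontier Ω ≃ₜ Metric.sphere (0 : E n) 1)))) →
      hardyMorrey p (cone e Real.pi) ≤ hardyMorrey p Ω) ∧
    (IsOpen (cone e Real.pi) ∧ (cone e Real.pi).Nonempty ∧ cone e Real.pi ≠ univ ∧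
      NoSphericalHole (cone e Real.pi)) := by
  have hn' : (1 : ℝ) ≤ n := by exact_mod_cast hn
  have hp1 : 1 < p := by linarith
  have hp0 : 0 < p := by linarith
  refine ⟨fun Ω hΩ hne hu hS => ?_, ?_, ⟨e, ?_⟩, ?_, noHole_cone he⟩
  · have hS' : NoSphericalHole Ω := by
      rcases hS with h | h | ⟨hb, h | h⟩
      · exact h
      · exact noHole_of_components h
      · exact noHole_of_frontier hn hΩ hb h
      · exact noHole_of_sphere hn hΩ hb h
    conv_rhs => unfold hardyMorrey
    refine le_iInf₂ fun u g => le_iInf₂ fun h hu0 => ?_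
    have hEt : energy p g ≠ ∞ := by
      rw [energy_eq hp1]
      exact ENNReal.rpow_ne_top_of_nonneg hp0.le h.memLp.2.ne
    -- the supremum
    have hmul : hardyMorrey p (cone e Real.pi) * weightedSup p Ω u ^ p ≤ energy p g := by
      have hmono : weightedSup p Ω u ^ p =
          ⨆ x ∈ Ω, ENNReal.ofReal (|u x| / Metric.infDist x Ωᶜ ^ (1 - (n : ℝ) / p)) ^ p := by
        unfold weightedSup
        have e1 : ∀ t : ℝ≥0∞, (ENNReal.orderIsoRpow p hp0) t = t ^ p := fun t => rfl
        rw [← e1, (ENNReal.orderIsoRpow p hp0).map_iSup]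
        congr 1; ext x
        rw [(ENNReal.orderIsoRpow p hp0).map_iSup]
        rfl
      rw [hmono, ENNReal.mul_iSup]
      refine iSup_le fun x => ?_
      rw [ENNReal.mul_iSup]
      exact iSup_le fun hx => key_point hn hp he hΩ hu hS' h hx
    have hs0 : weightedSup p Ω u ^ p ≠ 0 := by
      obtain ⟨x, hx⟩ : ∃ x, u x ≠ 0 := by
        by_contra hcon
        push Not at hcon
        exact hu0 (funext hcon)
      have hxΩ : x ∈ Ω := by
        by_contra h'
        exact hx (h.zero x h')
      have hcne : (Ωᶜ).Nonempty := nonempty_compl.2 hu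
      have hd0 : 0 < Metric.infDist x Ωᶜ :=
        (hΩ.isClosed_compl.notMem_iff_infDist_pos hcne).1 (fun h' => h' hxΩ)
      have h1 : ENNReal.ofReal (|u x| / Metric.infDist x Ωᶜ ^ (1 - (n : ℝ) / p)) ≤
          weightedSup p Ω u := by
        unfold weightedSup
        exact le_iSup₂ (f := fun y (_ : y ∈ Ω) =>
          ENNReal.ofReal (|u y| / Metric.infDist y Ωᶜ ^ (1 - (n : ℝ) / p))) x hxΩ
      have h2 : 0 < weightedSup p Ω u := lt_of_lt_of_le
        (ENNReal.ofReal_pos.2 (div_pos (abs_pos.2 hx) (Real.rpow_pos_of_pos hd0 _))) h1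
      exact (ENNReal.rpow_pos_of_nonneg h2 hp0.le).ne'
    exact (ENNReal.le_div_iff_mul_le (Or.inl hs0) (Or.inr hEt)).2 hmul
  · exact isOpen_lt (by fun_prop) (by fun_prop)
  · simp only [cone, mem_ofPred_eq, Real.cos_pi, he, real_inner_self_eq_norm_sq]
    norm_num
  · intro h
    have : (0 : E n) ∈ cone e Real.pi := by rw [h]; exact mem_univ _
    simp [cone] at this

end Pool.Agent.Results.MP_f42450_an.NoSphericalHoles
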